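import Pool.Agent.Helper64_SIU.Common

/-!
# MP_021b97_an, squad SIU, module MBD (helper64): mass bound for the pull-back of a closed
positive form
-/

set_option autoImplicit false

open MeasureTheory Filter Topology
open scoped ENNReal

namespace Pool.Agent.SIU.H64

/-- almost every point of the chart is in the domain of the flop -/
theorem ae_mem : ∀ᵐ x : Fin 4 → ℂ, sig x ∈ U2' := by
  have h1 : (volume : Measure (Fin 4 → ℂ)) {x | x 1 = 0} = 0 := by
    have h2 : {x : Fin 4 → ℂ | x 1 = 0} =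
        ((LinearMap.ker (LinearMap.proj (R := ℝ) (φ := fun _ : Fin 4 => ℂ) 1) :
          Submodule ℝ (Fin 4 → ℂ)) : Set (Fin 4 → ℂ)) := by
      ext x; simp
    rw [h2]
    apply Measure.addHaar_submodule
    intro h
    have h3 : (fun _ => 1 : Fin 4 → ℂ) ∈
      (LinearMap.ker (LinearMap.proj (R := ℝ) (φ := fun _ : Fin 4 => ℂ) 1) :
          Submodule ℝ (Fin 4 → ℂ)) := by rw [h]; trivial
    simp at h3
  rw [ae_iff]
  refine measure_mono_null ?_ h1
  intro x hx
  by_contra h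
  exact hx ((sig_mem_U2' x).mpr (Or.inl h))

/-- positivity of the integrand -/
theorem chi_nonneg (hWd : WdgStmt) (hW : WonStmt) (hL : LnkStmt) (hP : PsvStmt) (b : Bool)
    {K : E7 → Alt 7 6} (hK : Pos3 K) (η : E7 → Alt 7 2) (x : Fin 4 → ℂ) {m : ℕ}
    (l : Fin m → E7 →L[ℂ] ℂ)
    (hη : η (LL b (sig x)) = (4 : ℝ) • ∑ i, cc2 (reL (l i)) (imL (l i))) :
    0 ≤ chi (lamF b K η) x := by
  rw [chi_lamF_cc2 hWd hW hL b K η x l 4 hη]
  exact mul_nonneg (by norm_num) (Finset.sum_nonneg fun i _ => QQ_nonneg hW hP hK x _)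

theorem wedge_add3 {N k l : ℕ} (hWd : WdgStmt) (M : Alt N k) (a a₁ a₂ a₃ : Alt N l)
    (h : a = a₁ + a₂ + a₃) (v : Fin (k + l) → Fin N → ℂ) :
    wedge M a v = wedge M a₁ v + wedge M a₂ v + wedge M a₃ v := by
  rw [h, (hWd N k l).2.1, (hWd N k l).2.1]
  rfl

theorem chi_lamF_c (hWd : WdgStmt) (b : Bool)
    (K : E7 → Alt 7 6) (η : E7 → Alt 7 2) (x : Fin 4 → ℂ) (β : Alt 4 2)
    (h : (η (LL b (sig x))).compContinuousLinearMap ((Li b).restrictScalars ℝ) = β) :
    chi (lamF b K η) x = (wedge (MM K x) β : Alt 4 8) (stdb 4 8) := by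
  rw [← h]
  exact chi_lamF hWd b K η x

theorem lamF_add (hWd : WdgStmt) (b : Bool) (K : E7 → Alt 7 6) (η₁ η₂ η₃ η : E7 → Alt 7 2)
    (x : Fin 4 → ℂ) (h : η (LL b (sig x)) = η₁ (LL b (sig x)) + η₂ (LL b (sig x)) +
      η₃ (LL b (sig x))) :
    chi (lamF b K η) x = chi (lamF b K η₁) x + chi (lamF b K η₂) x + chi (lamF b K η₃) x := by
  rw [chi_lamF_c hWd b K η x _ rfl, chi_lamF_c hWd b K η₁ x _ rfl,
    chi_lamF_c hWd b K η₂ x _ rfl, chi_lamF_c hWd b K η₃ x _ rfl]
  refine wedge_add3 (N := 4) (k := 6) (l := 2) hWd (MM K x) _ _ _ _ ?_ (stdb 4 8)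
  rw [h]
  rfl

theorem mbd (hWd : WdgStmt) (hW : WonStmt) (hL : LnkStmt) (hF : KfmStmt) (hP : PsvStmt)
    (hK : KdcStmt) (hI : LinStmt) (hC : CmpStmt) : MbdStmt := by
  intro K hKc hK3
  obtain ⟨m, l, w, i₀, i₁, hk, hkL, hkY, -, -⟩ := hK
  obtain ⟨hF1, -, hF2, hF3⟩ := hF
  have hpos : ∀ (b : Bool) (x : Fin 4 → ℂ), sig x ∈ U2' →
      0 ≤ chi (lamF b K X2.kahler) x := fun b x hx =>
    chi_nonneg hWd hW hL hP b hK3 X2.kahler x (fun i => l i (LL b (sig x)))
      (hk _ (LL_mem b hx).1)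
  have hposL : ∀ (b : Bool) (x : Fin 4 → ℂ), sig x ∈ U2' →
      0 ≤ chi (lamF b K kL) x := fun b x hx =>
    chi_nonneg hWd hW hL hP b hK3 kL x (fun _ : Fin 1 => l i₀ (LL b (sig x)))
      (by rw [Fin.sum_univ_one]; exact hkL _ (LL_mem b hx).1)
  have hposY : ∀ (b : Bool) (x : Fin 4 → ℂ), sig x ∈ U2' →
      0 ≤ chi (lamF b K kY) x := fun b x hx =>
    chi_nonneg hWd hW hL hP b hK3 kY x (fun _ : Fin 1 => l i₁ (LL b (sig x)))
      (by rw [Fin.sum_univ_one]; exact hkY _ (LL_mem b hx).1)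
  have hcont : ContinuousOn K X2.U := hKc.1.continuousOn
  have hbas := hKc.2.1
  have int : ∀ (b : Bool), ∀ η ∈ ({kL, kH, kY} : Set (E7 → Alt 7 2)),
      Integrable (chi (lamF b K η)) := fun b η hη =>
    ((hI b K hcont hbas).1 η (hF2 η hη).2.continuousOn (hF2 η hη).1).2.2.2
  have hsum : ∀ b : Bool, Lam b K X2.kahler = Lam b K kL + Lam b K kH + Lam b K kY := by
    intro b
    unfold Lam
    have e1 := integral_add (int b kL (by simp)) (int b kH (by simp))
    have e2 := integral_add ((int b kL (by simp)).add (int b kH (by simp))) (int b kY (by simp))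
    simp only [Pi.add_apply] at e2
    rw [← e1, ← e2]
    refine integral_congr_ae ?_
    filter_upwards [ae_mem] with x hx
    exact lamF_add hWd b K kL kH kY X2.kahler x (hF1 _ (LL_mem b hx).1)
  have hnn : ∀ b η, (∀ x : Fin 4 → ℂ, sig x ∈ U2' → 0 ≤ chi (lamF b K η) x) → 0 ≤ Lam b K η := by
    intro b η h
    refine integral_nonneg_of_ae ?_
    filter_upwards [ae_mem] with x hx
    exact h x hx
  have hsame : ∀ η : E7 → Alt 7 2, (∀ z ∈ U2', lp flop η z = η z) → Lam true K η = Lam false K η := by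
    intro η h
    refine integral_congr_ae ?_
    filter_upwards [ae_mem] with x hx
    have h1 : lamF true K η (sig x) = lamF false K η (sig x) := by
      unfold lamF
      have h2 : lp (LL true) η (sig x) = η (sig x) := h _ hx
      have h3 : lp (LL false) η (sig x) = η (sig x) := by
        ext v
        rfl
      rw [h2, h3]
    unfold chi
    rw [h1]
  intro b
  refine ⟨?_, hpos b⟩
  cases b with
  | false =>
    have := hnn false X2.kahler (hpos false)
    linarith
  | true =>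
    have h1 := hsum true
    have h2 := hsum false
    have h3 := hC K hKc
    have h4 := hsame kH fun z hz => (hF3 z hz).1
    have h5 := hsame kY fun z hz => (hF3 z hz).2.1
    have h6 := hnn false kL (hposL false)
    have h7 := hnn false kY (hposY false)
    rw [h1, h2, h3, h4, h5]
    linarith

end Pool.Agent.SIU.H64
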