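import Pool.Agent.Helper64_SIU.Common

/-!
# MP_021b97_an, squad SIU, module ORD (helper64): pointwise bound of `df ∧ dg` by the Kähler form
-/

set_option autoImplicit false

open MeasureTheory Filter Topology
open scoped ENNReal

namespace Pool.Agent.SIU.H64

theorem w1_w1_pull {N n k : ℕ} (hW : WonStmt) (L : (Fin n → ℂ) →L[ℝ] (Fin N → ℂ))
    (c d : (Fin N → ℂ) →L[ℝ] ℝ) (K : Alt N k) (v : Fin (k + 1 + 1) → Fin n → ℂ) :
    w1 c (w1 d K) (fun i => L (v i)) =
      w1 (c.comp L) (w1 (d.comp L) (K.compContinuousLinearMap L)) v := by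
  have h1 := (hW N (k + 1)).2.2.2.1 n L c (w1 d K)
  have h2 := (hW N k).2.2.2.1 n L d K
  rw [h2] at h1
  rw [← h1]
  rfl

/-- the integrand `tri` in the chart -/
theorem chi_triF (hW : WonStmt) (b : Bool) (K : E7 → Alt 7 6) (f g : E7 → ℝ)
    (hf : InvFn f) (hg : InvFn g) (x : Fin 4 → ℂ) (hx : LL b (sig x) ∈ X2.U) :
    chi (triF b K (fun _ => 1) f g) x =
      (w1 ((fderiv ℝ f (LL b (sig x))).comp ((Li b).restrictScalars ℝ))
        (w1 ((fderiv ℝ g (LL b (sig x))).comp ((Li b).restrictScalars ℝ)) (MM K x)) : Alt 4 8)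
        (stdb 4 8) := by
  have hd : ∀ h : E7 → ℝ, InvFn h → fderiv ℝ (fun w => h (LL b w)) (sig x) =
      (fderiv ℝ h (LL b (sig x))).comp ((LL b).restrictScalars ℝ) := by
    intro h hh
    have h1 : DifferentiableAt ℝ h (LL b (sig x)) :=
      (hh.1.contDiffAt (isOpen_U.mem_nhds hx)).differentiableAt (by simp)
    have h2 : HasFDerivAt (fun w => LL b w) ((LL b).restrictScalars ℝ) (sig x) :=
      ((LL b).restrictScalars ℝ).hasFDerivAt
    exact (h1.hasFDerivAt.comp (sig x) h2).fderiv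
  have e := w1_w1_pull hW (inc.restrictScalars ℝ)
    (fderiv ℝ (fun w => f (LL b w)) (sig x)) (fderiv ℝ (fun w => g (LL b w)) (sig x))
    (K (sig x)) (stdb 4 8)
  rw [hd f hf, hd g hg] at e
  unfold chi triF
  rw [one_smul, hd f hf, hd g hg]
  exact e

/-- decomposition of the differential of an invariant function -/
theorem decomp {m : ℕ} (D : E7 →L[ℝ] ℝ) (z : E7) (l : Fin m → E7 →L[ℂ] ℂ) (w : Fin m → E7)
    (h1 : ∀ v, X2.Vert z v → D v = 0) (h2 : ∀ v, X2.Vert z (v - ∑ i, l i v • w i)) :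
    D = ∑ i, (D (w i) • reL (l i) + D (Complex.I • w i) • imL (l i)) := by
  ext v
  have h3 := h1 _ (h2 v)
  rw [map_sub, sub_eq_zero, map_sum] at h3
  rw [h3, sum_apply]
  refine Finset.sum_congr rfl fun i _ => ?_
  have h4 : l i v • w i = (l i v).re • w i + (l i v).im • (Complex.I • w i) := by
    funext j
    simp only [Pi.smul_apply, Pi.add_apply, smul_eq_mul, Complex.real_smul]
    conv_lhs => rw [← Complex.re_add_im (l i v)]
    ring
  rw [h4, map_add, map_smul, map_smul]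
  simp [reL, imL]
  ring

theorem Q_bound {V : Type*} [AddCommGroup V] [Module ℝ V] (Q : V →ₗ[ℝ] V →ₗ[ℝ] ℝ)
    (hpos : ∀ v, 0 ≤ Q v v) (hs : ∀ v w, Q v w = Q w v) {m : ℕ} (r s : Fin m → V)
    (hrs : ∀ i, Q (s i) (s i) = Q (r i) (r i)) (a b : Fin m → ℝ) (C : ℝ)
    (ha : ∀ i, |a i| ≤ C) (hb : ∀ i, |b i| ≤ C) :
    Q (∑ i, (a i • r i + b i • s i)) (∑ i, (a i • r i + b i • s i)) ≤
      m * C ^ 2 * (4 * ∑ i, Q (r i) (r i)) := by
  have h1 := quad_sum Q hpos hs Finset.univ (fun i => a i • r i + b i • s i)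
  rw [Finset.card_univ, Fintype.card_fin] at h1
  refine h1.trans ?_
  have h2 : ∀ i, Q (a i • r i + b i • s i) (a i • r i + b i • s i) ≤
      4 * C ^ 2 * Q (r i) (r i) := by
    intro i
    have h3 := hpos (a i • r i - b i • s i)
    have h4 : a i ^ 2 ≤ C ^ 2 := sq_le_sq' (by linarith [(abs_le.mp (ha i)).1])
      (abs_le.mp (ha i)).2
    have h5 : b i ^ 2 ≤ C ^ 2 := sq_le_sq' (by linarith [(abs_le.mp (hb i)).1])
      (abs_le.mp (hb i)).2
    have h6 := mul_le_mul_of_nonneg_right h4 (hpos (r i))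
    have h7 := mul_le_mul_of_nonneg_right h5 (hpos (r i))
    simp only [map_sub, map_add, map_smul, LinearMap.sub_apply, LinearMap.add_apply,
      LinearMap.smul_apply, smul_eq_mul, hrs] at h3 ⊢
    nlinarith
  have h3 : ∑ i, Q (a i • r i + b i • s i) (a i • r i + b i • s i) ≤
      ∑ i, 4 * C ^ 2 * Q (r i) (r i) := Finset.sum_le_sum fun i _ => h2 i
  rw [← Finset.mul_sum] at h3
  have h4 := mul_le_mul_of_nonneg_left h3 (Nat.cast_nonneg (α := ℝ) m)
  refine h4.trans (le_of_eq ?_)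
  ring

theorem ord (hWd : WdgStmt) (hW : WonStmt) (hL : LnkStmt) (hB : BsdStmt) (hP : PsvStmt)
    (hK : KdcStmt) : OrdStmt := by
  intro f g hf hg
  obtain ⟨m, l, w, i₀, i₁, hk, -, -, hv, hbd⟩ := hK
  obtain ⟨Cf, hCf⟩ := hbd f hf
  obtain ⟨Cg, hCg⟩ := hbd g hg
  refine ⟨((m : ℝ) * Cf ^ 2 + m * Cg ^ 2) / 2, by positivity, ?_⟩
  intro b K x hK3 hx
  have hz : LL b (sig x) ∈ X2.U := (LL_mem b hx).1
  set z := LL b (sig x) with hzdef
  set Q := QQ hW (MM K x) with hQ
  have hpos : ∀ v, 0 ≤ Q v v := QQ_nonneg hW hP hK3 x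
  have hs : ∀ v w, Q v w = Q w v := QQ_symm hW hP hK3 x
  have hcj : ∀ v w, Q (cj v) (cj w) = Q v w := QQ_cj hW hP hK3 x
  have hchi : chi (lamF b K X2.kahler) x = 4 * ∑ i, Q (reL ((l i z).comp (Li b)))
      (reL ((l i z).comp (Li b))) :=
    chi_lamF_cc2 hWd hW hL b K X2.kahler x (fun i => l i z) 4 (hk z hz)
  -- bound for the differential of an invariant function
  have key : ∀ h : E7 → ℝ, InvFn h → ∀ C : ℝ,
      (∀ z ∈ X2.U, ∀ i, ∀ u : ℂ, |fderiv ℝ h z (u • w i z)| ≤ C * ‖u‖) →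
      Q ((fderiv ℝ h z).comp ((Li b).restrictScalars ℝ))
        ((fderiv ℝ h z).comp ((Li b).restrictScalars ℝ)) ≤
        m * C ^ 2 * chi (lamF b K X2.kahler) x := by
    intro h hh C hC
    have hvert : ∀ v, X2.Vert z v → fderiv ℝ h z v = 0 :=
      ((hB 7 3 4 X2 X2.U isOpen_U (fun w hw c hc => (act_mem_U hc w).mpr hw)).2.1 h
        (hh.1.differentiableOn (by simp)) hh.2).2 z hz
    have hdec := decomp (fderiv ℝ h z) z (fun i => l i z) (fun i => w i z) hvert (hv z hz)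
    have e1 : (fderiv ℝ h z).comp ((Li b).restrictScalars ℝ) =
        ∑ i, (fderiv ℝ h z (w i z) • reL ((l i z).comp (Li b)) +
          fderiv ℝ h z (Complex.I • w i z) • imL ((l i z).comp (Li b))) := by
      ext v
      have := DFunLike.congr_fun hdec ((Li b).restrictScalars ℝ v)
      rw [sum_apply] at this
      rw [ContinuousLinearMap.comp_apply, this, sum_apply]
      rfl
    rw [e1, hchi]
    refine Q_bound Q hpos hs _ _ (fun i => ?_) _ _ C (fun i => ?_) (fun i => ?_)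
    · rw [← cj_reL, hcj]
    · have := hC z hz i 1
      rwa [one_smul, norm_one, mul_one] at this
    · have := hC z hz i Complex.I
      rwa [Complex.norm_I, mul_one] at this
  rw [chi_triF hW b K f g hf hg x hz]
  have e2 : (w1 ((fderiv ℝ f z).comp ((Li b).restrictScalars ℝ))
        (w1 ((fderiv ℝ g z).comp ((Li b).restrictScalars ℝ)) (MM K x)) : Alt 4 8)
        (stdb 4 8) = Q ((fderiv ℝ f z).comp ((Li b).restrictScalars ℝ))
          (-cj ((fderiv ℝ g z).comp ((Li b).restrictScalars ℝ))) := by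
    rw [hQ, QQ_apply]
    have e3 : cj (-cj ((fderiv ℝ g z).comp ((Li b).restrictScalars ℝ))) =
        (fderiv ℝ g z).comp ((Li b).restrictScalars ℝ) := by
      have e4 : ∀ c : (Fin 4 → ℂ) →L[ℝ] ℝ, cj (-c) = -cj c := by
        intro c
        ext v
        simp [cj]
      rw [e4, cj_cj, neg_neg]
    rw [e3]
  rw [e2]
  have h1 := quad_abs Q hpos hs ((fderiv ℝ f z).comp ((Li b).restrictScalars ℝ))
          (-cj ((fderiv ℝ g z).comp ((Li b).restrictScalars ℝ)))
  have h2 : Q (-cj ((fderiv ℝ g z).comp ((Li b).restrictScalars ℝ)))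
      (-cj ((fderiv ℝ g z).comp ((Li b).restrictScalars ℝ))) =
      Q ((fderiv ℝ g z).comp ((Li b).restrictScalars ℝ))
        ((fderiv ℝ g z).comp ((Li b).restrictScalars ℝ)) := by
    rw [LinearMap.map_neg₂, map_neg, neg_neg, hcj]
  rw [h2] at h1
  have h3 := key f hf Cf hCf
  have h4 := key g hg Cg hCg
  refine h1.trans ?_
  linarith

end Pool.Agent.SIU.H64
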