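import Pool.Agent.Helper15_SIU.Stmts

/-!
# MP_021b97_an, squad SIU: common lemmas for the modules ORD and MBD (helper64)
-/

set_option autoImplicit false

open MeasureTheory Filter Topology
open scoped ENNReal

namespace Pool.Agent.SIU.H64

/-- quadratic form inequalities -/
theorem quad_abs {V : Type*} [AddCommGroup V] [Module ℝ V] (Q : V →ₗ[ℝ] V →ₗ[ℝ] ℝ)
    (hpos : ∀ v, 0 ≤ Q v v) (hs : ∀ v w, Q v w = Q w v) (v w : V) :
    |Q v w| ≤ (Q v v + Q w w) / 2 := by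
  have h1 := hpos (v + w)
  have h2 := hpos (v - w)
  simp only [map_add, map_sub, LinearMap.add_apply, LinearMap.sub_apply] at h1 h2
  rw [hs w v] at h1 h2
  rw [abs_le]
  constructor <;> linarith

theorem quad_sum {V ι : Type*} [AddCommGroup V] [Module ℝ V] (Q : V →ₗ[ℝ] V →ₗ[ℝ] ℝ)
    (hpos : ∀ v, 0 ≤ Q v v) (hs : ∀ v w, Q v w = Q w v) (s : Finset ι) (u : ι → V) :
    Q (∑ i ∈ s, u i) (∑ i ∈ s, u i) ≤ (s.card : ℝ) * ∑ i ∈ s, Q (u i) (u i) := by
  have h1 : Q (∑ i ∈ s, u i) (∑ i ∈ s, u i) = ∑ i ∈ s, ∑ j ∈ s, Q (u i) (u j) := by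
    rw [LinearMap.map_sum₂]
    exact Finset.sum_congr rfl fun i _ => map_sum _ _ _
  have h2 : ∑ i ∈ s, ∑ j ∈ s, Q (u i) (u j) ≤
      ∑ i ∈ s, ∑ j ∈ s, (Q (u i) (u i) + Q (u j) (u j)) / 2 :=
    Finset.sum_le_sum fun i _ => Finset.sum_le_sum fun j _ =>
      (le_abs_self _).trans (quad_abs Q hpos hs _ _)
  have h3 : ∑ i ∈ s, ∑ j ∈ s, (Q (u i) (u i) + Q (u j) (u j)) / 2 =
      (s.card : ℝ) * ∑ i ∈ s, Q (u i) (u i) := by
    have : ∀ i ∈ s, ∑ j ∈ s, (Q (u i) (u i) + Q (u j) (u j)) / 2 =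
        (s.card : ℝ) * Q (u i) (u i) / 2 + (∑ j ∈ s, Q (u j) (u j)) / 2 := by
      intro i _
      rw [← Finset.sum_div, Finset.sum_add_distrib, Finset.sum_const, nsmul_eq_mul, add_div]
    rw [Finset.sum_congr rfl this, Finset.sum_add_distrib, Finset.sum_const, nsmul_eq_mul,
      ← Finset.sum_div, ← Finset.mul_sum]
    ring
  rw [h1]
  exact h2.trans h3.le

/-- the chart followed by the identity or the flop, as complex linear map -/
noncomputable def Li (b : Bool) : (Fin 4 → ℂ) →L[ℂ] E7 := (LL b).comp inc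

/-- the form `K` in the chart -/
noncomputable def MM (K : E7 → Alt 7 6) (x : Fin 4 → ℂ) : Alt 4 6 :=
  (K (sig x)).compContinuousLinearMap (inc.restrictScalars ℝ)

/-- the bilinear form `(b, c) ↦ (b ∧ c^c ∧ M)(e)` -/
noncomputable def QQ (hW : WonStmt) (M : Alt 4 6) :
    ((Fin 4 → ℂ) →L[ℝ] ℝ) →ₗ[ℝ] ((Fin 4 → ℂ) →L[ℝ] ℝ) →ₗ[ℝ] ℝ :=
  LinearMap.mk₂ ℝ (fun b c => w1 b (w1 (cj c) M) (stdb 4 8))
    (fun b b' c => by rw [(hW 4 7).1]; rfl)
    (fun t b c => by rw [((hW 4 7).2.2.1 t b _).1]; rfl)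
    (fun b c c' => by
      have h : cj (c + c') = cj c + cj c' := by
        ext v; simp [cj]; ring
      rw [h, (hW 4 6).1, (hW 4 7).2.1]; rfl)
    (fun t b c => by
      have h : cj (t • c) = t • cj c := by
        ext v; simp [cj]
      rw [h, ((hW 4 6).2.2.1 t _ _).1, ((hW 4 7).2.2.1 t _ _).2]; rfl)

theorem QQ_apply (hW : WonStmt) (M : Alt 4 6) (b c : (Fin 4 → ℂ) →L[ℝ] ℝ) :
    QQ hW M b c = w1 b (w1 (cj c) M) (stdb 4 8) := rfl

theorem cj_cj {N : ℕ} (c : (Fin N → ℂ) →L[ℝ] ℝ) : cj (cj c) = -c := by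
  ext v
  have h : mulC N Complex.I (mulC N Complex.I v) = -v := by
    ext i
    simp [mulC, ← mul_assoc]
  simp only [cj, neg_apply, ContinuousLinearMap.comp_apply,
    ContinuousLinearMap.neg_comp, neg_neg, h, map_neg]

theorem cj_reL {N : ℕ} (l : (Fin N → ℂ) →L[ℂ] ℂ) : cj (reL l) = imL l := by
  ext v
  have h : mulC N Complex.I v = Complex.I • v := by
    ext i; simp [mulC]
  simp only [cj, neg_apply, ContinuousLinearMap.comp_apply, h, reL, imL,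
    ContinuousLinearMap.coe_restrictScalars', map_smul, Complex.reCLM_apply, Complex.imCLM_apply,
    smul_eq_mul, Complex.mul_re, Complex.I_re, Complex.I_im]
  ring

theorem reL_comp {N n : ℕ} (l : (Fin N → ℂ) →L[ℂ] ℂ) (L : (Fin n → ℂ) →L[ℂ] (Fin N → ℂ)) :
    (reL l).comp (L.restrictScalars ℝ) = reL (l.comp L) := rfl

theorem imL_comp {N n : ℕ} (l : (Fin N → ℂ) →L[ℂ] ℂ) (L : (Fin n → ℂ) →L[ℂ] (Fin N → ℂ)) :
    (imL l).comp (L.restrictScalars ℝ) = imL (l.comp L) := rfl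

theorem cj_comp {N n : ℕ} (c : (Fin N → ℂ) →L[ℝ] ℝ) (L : (Fin n → ℂ) →L[ℂ] (Fin N → ℂ)) :
    (cj c).comp (L.restrictScalars ℝ) = cj (c.comp (L.restrictScalars ℝ)) := by
  ext v
  simp [cj, mulC]

/-- `MM` is a positive `(3,3)`-form -/
theorem MM_pos {K : E7 → Alt 7 6} (hK : Pos3 K) (x : Fin 4 → ℂ) :
    WPos 3 (MM K x) ∧ ∀ u : ℂ, ‖u‖ = 1 → ∀ v, MM K x (fun j => u • v j) = MM K x v := by
  obtain ⟨h1, h2⟩ := hK (sig x) (sig_mem_U x)
  constructor
  · intro v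
    have := h1 (fun j => inc (v j))
    have e : (fun i => inc (cvec v (2 * 3) i)) = cvec (fun j => inc (v j)) (2 * 3) := by
      funext i
      unfold cvec
      split_ifs
      · rfl
      · exact map_smul inc _ _
    show 0 ≤ K (sig x) (fun i => inc (cvec v (2 * 3) i))
    rw [e]
    exact this
  · intro u hu v
    have := h2 u hu (fun j => inc (v j))
    show K (sig x) (fun i => inc (u • v i)) = K (sig x) (fun i => inc (v i))
    rw [← this]
    congr 1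
    funext i
    exact map_smul inc _ _

theorem QQ_nonneg (hW : WonStmt) (hP : PsvStmt) {K : E7 → Alt 7 6} (hK : Pos3 K)
    (x : Fin 4 → ℂ) (b : (Fin 4 → ℂ) →L[ℝ] ℝ) : 0 ≤ QQ hW (MM K x) b b :=
  (hP _ (MM_pos hK x).1 (MM_pos hK x).2).1 b

theorem QQ_symm (hW : WonStmt) (hP : PsvStmt) {K : E7 → Alt 7 6} (hK : Pos3 K)
    (x : Fin 4 → ℂ) (b c : (Fin 4 → ℂ) →L[ℝ] ℝ) : QQ hW (MM K x) b c = QQ hW (MM K x) c b :=
  (hP _ (MM_pos hK x).1 (MM_pos hK x).2).2.1 b c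

theorem QQ_cj (hW : WonStmt) (hP : PsvStmt) {K : E7 → Alt 7 6} (hK : Pos3 K)
    (x : Fin 4 → ℂ) (b c : (Fin 4 → ℂ) →L[ℝ] ℝ) :
    QQ hW (MM K x) (cj b) (cj c) = QQ hW (MM K x) b c :=
  (hP _ (MM_pos hK x).1 (MM_pos hK x).2).2.2 b c

theorem chi_gen (η : E7 → Alt 7 8) (x : Fin 4 → ℂ) :
    chi η x = (η (sig x)).compContinuousLinearMap (inc.restrictScalars ℝ) (stdb 4 8) := rfl

/-- pull-back of `η` (evaluated at `LL b z`) in the chart -/
theorem chi_lamF (hWd : WdgStmt) (b : Bool) (K : E7 → Alt 7 6) (η : E7 → Alt 7 2)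
    (x : Fin 4 → ℂ) :
    chi (lamF b K η) x =
      (wedge (MM K x) ((η (LL b (sig x))).compContinuousLinearMap ((Li b).restrictScalars ℝ)) :
        Alt 4 8) (stdb 4 8) := by
  have h : ((lamF b K η (sig x)).compContinuousLinearMap (inc.restrictScalars ℝ) : Alt 4 8) =
      wedge (MM K x) ((η (LL b (sig x))).compContinuousLinearMap ((Li b).restrictScalars ℝ)) :=
    (hWd 7 6 2).2.2.2.1 4 (inc.restrictScalars ℝ) (K (sig x)) (lp (LL b) η (sig x))
  rw [chi_gen, h]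

/-- pull-back of a sum of forms `cc2` -/
theorem pull_cc2 (hW : WonStmt) (b : Bool) {m : ℕ} (l : Fin m → E7 →L[ℂ] ℂ) (t : ℝ) :
    ((t • ∑ i, cc2 (reL (l i)) (imL (l i)) : Alt 7 2)).compContinuousLinearMap
      ((Li b).restrictScalars ℝ) =
      t • ∑ i, cc2 (reL ((l i).comp (Li b))) (imL ((l i).comp (Li b))) := by
  have e2 : ∀ i, (cc2 (reL (l i)) (imL (l i))).compContinuousLinearMap
      ((Li b).restrictScalars ℝ) =
      cc2 (reL ((l i).comp (Li b))) (imL ((l i).comp (Li b))) := by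
    intro i
    unfold cc2
    rw [(hW 7 1).2.2.2.1, (hW 7 0).2.2.2.1, reL_comp, imL_comp]
    rfl
  ext v
  have e3 : ∀ i, (cc2 (reL (l i)) (imL (l i))) (fun j => (Li b).restrictScalars ℝ (v j)) =
      cc2 (reL ((l i).comp (Li b))) (imL ((l i).comp (Li b))) v := by
    intro i
    rw [← e2 i]
    rfl
  show (t • ∑ i, cc2 (reL (l i)) (imL (l i)) : Alt 7 2)
    (fun j => (Li b).restrictScalars ℝ (v j)) = _
  rw [ContinuousAlternatingMap.smul_apply, ContinuousAlternatingMap.smul_apply,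
    ContinuousAlternatingMap.sum_apply, ContinuousAlternatingMap.sum_apply]
  simp only [e3]

theorem wedge_sum {N k l m : ℕ} (hWd : WdgStmt) (M : Alt N k) (t : ℝ) (a : Fin m → Alt N l) :
    wedge M (t • ∑ i, a i) = t • ∑ i, wedge M (a i) := by
  have e4 : ∀ s : Finset (Fin m), wedge M (∑ i ∈ s, a i) = ∑ i ∈ s, wedge M (a i) := by
    classical
    intro s
    induction s using Finset.induction_on with
    | empty =>
      have := ((hWd N k l).2.2.1 0 M 0).2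
      simpa using this
    | insert i s his ih =>
      rw [Finset.sum_insert his, Finset.sum_insert his, (hWd N k l).2.1, ih]
  rw [((hWd N k l).2.2.1 _ _ _).2, e4]

theorem wedge_sum_cc2 {N k m : ℕ} (hWd : WdgStmt) (hL : LnkStmt) (hk : Even k) (M : Alt N k)
    (t : ℝ) (b c : Fin m → (Fin N → ℂ) →L[ℝ] ℝ) :
    wedge M (t • ∑ i, cc2 (b i) (c i)) = t • ∑ i, w1 (b i) (w1 (c i) M) := by
  rw [wedge_sum hWd]
  congr 1
  exact Finset.sum_congr rfl fun i _ => hL.1 N k hk _ _ _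

theorem eval_sum_cc2 {N k m : ℕ} (hWd : WdgStmt) (hL : LnkStmt) (hk : Even k) (M : Alt N k)
    (t : ℝ) (b c : Fin m → (Fin N → ℂ) →L[ℝ] ℝ) (β : Alt N 2)
    (hβ : β = t • ∑ i, cc2 (b i) (c i)) (v : Fin (k + 2) → Fin N → ℂ) :
    wedge M β v = t * ∑ i, w1 (b i) (w1 (c i) M) v := by
  rw [hβ, wedge_sum_cc2 hWd hL hk, ContinuousAlternatingMap.smul_apply,
    ContinuousAlternatingMap.sum_apply, smul_eq_mul]

theorem chi_lamF_cc2a (hWd : WdgStmt) (hW : WonStmt) (hL : LnkStmt) (b : Bool)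
    (K : E7 → Alt 7 6) (η : E7 → Alt 7 2) (x : Fin 4 → ℂ) {m : ℕ} (l : Fin m → E7 →L[ℂ] ℂ)
    (t : ℝ) (hη : η (LL b (sig x)) = t • ∑ i, cc2 (reL (l i)) (imL (l i))) :
    chi (lamF b K η) x =
      t * ∑ i, (w1 (reL ((l i).comp (Li b))) (w1 (imL ((l i).comp (Li b))) (MM K x)) : Alt 4 8)
        (stdb 4 8) := by
  have h1 : (η (LL b (sig x))).compContinuousLinearMap ((Li b).restrictScalars ℝ) =
      t • ∑ i, cc2 (reL ((l i).comp (Li b))) (imL ((l i).comp (Li b))) := by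
    rw [hη]
    exact pull_cc2 hW b l t
  rw [chi_lamF hWd]
  exact eval_sum_cc2 hWd hL (by decide) (MM K x) t _ _ _ h1 (stdb 4 8)

theorem chi_lamF_cc2 (hWd : WdgStmt) (hW : WonStmt) (hL : LnkStmt) (b : Bool)
    (K : E7 → Alt 7 6) (η : E7 → Alt 7 2) (x : Fin 4 → ℂ) {m : ℕ} (l : Fin m → E7 →L[ℂ] ℂ)
    (t : ℝ) (hη : η (LL b (sig x)) = t • ∑ i, cc2 (reL (l i)) (imL (l i))) :
    chi (lamF b K η) x =
      t * ∑ i, QQ hW (MM K x) (reL ((l i).comp (Li b))) (reL ((l i).comp (Li b))) := by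
  rw [chi_lamF_cc2a hWd hW hL b K η x l t hη]
  congr 1
  refine Finset.sum_congr rfl fun i _ => ?_
  rw [QQ_apply, cj_reL]

end Pool.Agent.SIU.H64
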